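import Pool.Agent.MP_66cee2_co.H12.Shift

/-
From one random piece to a map that preserves unit distances and is not an isometry.
-/

namespace Pool.Agent.MP_66cee2_co.H32U

open Filter Topology
open scoped RealInnerProductSpace

/-- `x` is kept by the centres `A`. -/
def Good {d : ℕ} (r R : ℝ) (A : Finset (EuclideanSpace ℝ (Fin d)))
    (x : EuclideanSpace ℝ (Fin d)) : Prop :=
  ∃ c ∈ A, dist x c < r ∧ ∀ c' ∈ A, c' ≠ c → R < dist c' (c + (3 / 2 : ℝ) • (x - c))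

open Classical in
/-- one set of centres keeps a fixed share of any finite set. -/
def SProb : Prop :=
  ∀ (d : ℕ) (F : Finset (EuclideanSpace ℝ (Fin d))) (r R : ℝ), 1 ≤ d → 0 < r → 2 * r ≤ R →
    ∃ A : Finset (EuclideanSpace ℝ (Fin d)),
      (r / R) ^ d / 8 * F.card ≤ ((F.filter fun x => Good r R A x).card : ℝ)

theorem piece {V : Type*} [NormedAddCommGroup V] [InnerProductSpace ℝ V] (u v w : V) (ρ : ℝ)
    (h0 : 0 ≤ ρ) (hρ : 27 / 16 ≤ ρ ^ 2) (hu : ‖u‖ ≤ 1 / 2) (hv : ‖v‖ ≤ 1 / 2)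
    (h1 : ρ < ‖w - (3 / 2 : ℝ) • u‖) (h2 : ρ < ‖w + (3 / 2 : ℝ) • v‖) : ‖w + v - u‖ ≠ 1 := by
  intro h
  have a1 : ρ ^ 2 < ‖w - (3 / 2 : ℝ) • u‖ ^ 2 := pow_lt_pow_left₀ h1 h0 two_ne_zero
  have a2 : ρ ^ 2 < ‖w + (3 / 2 : ℝ) • v‖ ^ 2 := pow_lt_pow_left₀ h2 h0 two_ne_zero
  rw [norm_sub_sq_real, real_inner_smul_right, norm_smul, Real.norm_eq_abs,
    abs_of_pos (by norm_num : (0 : ℝ) < 3 / 2)] at a1
  rw [norm_add_sq_real, real_inner_smul_right, norm_smul, Real.norm_eq_abs,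
    abs_of_pos (by norm_num : (0 : ℝ) < 3 / 2)] at a2
  have b1 : ‖u‖ ^ 2 ≤ 1 / 4 := by nlinarith [norm_nonneg u]
  have b2 : ‖v‖ ^ 2 ≤ 1 / 4 := by nlinarith [norm_nonneg v]
  have c1 := real_inner_le_norm w (w + v - u)
  rw [h, inner_sub_right, inner_add_right, real_inner_self_eq_norm_sq] at c1
  nlinarith [sq_nonneg (‖w‖ - 3 / 2)]

open Classical in
theorem greedy {X : Type*} {Ω : Type*} [Nonempty Ω] (g : Ω → X → Prop) (p : ℝ) (hp : p ≤ 1)
    (h : ∀ F : Finset X, ∃ A, p * F.card ≤ ((F.filter fun x => g A x).card : ℝ)) (F : Finset X)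
    (k : ℕ) : ∃ A : ℕ → Ω,
      ((F.filter fun x => ∀ i < k, ¬ g (A i) x).card : ℝ) ≤ (1 - p) ^ k * F.card := by
  induction k with
  | zero => exact ⟨fun _ => Classical.arbitrary Ω, by simp⟩
  | succ k ih =>
    obtain ⟨A, hA⟩ := ih
    set F' := F.filter fun x => ∀ i < k, ¬ g (A i) x with hF'
    obtain ⟨B, hB⟩ := h F'
    refine ⟨fun i => if i < k then A i else B, ?_⟩
    have e : (F.filter fun x => ∀ i < k + 1, ¬ g (if i < k then A i else B) x) ⊆
        F'.filter fun x => ¬ g B x := by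
      intro x hx
      simp only [hF', Finset.mem_filter] at hx ⊢
      refine ⟨⟨hx.1, fun i hi => ?_⟩, ?_⟩
      · have := hx.2 i (by omega)
        rwa [if_pos hi] at this
      · have := hx.2 k (by omega)
        rwa [if_neg (lt_irrefl k)] at this
    have c1 : ((F'.filter fun x => g B x).card : ℝ) + (F'.filter fun x => ¬ g B x).card =
        F'.card := by exact_mod_cast Finset.card_filter_add_card_filter_not (s := F') _
    have c2 : ((F.filter fun x => ∀ i < k + 1, ¬ g (if i < k then A i else B) x).card : ℝ) ≤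
        (F'.filter fun x => ¬ g B x).card := by exact_mod_cast Finset.card_le_card e
    have c3 := mul_le_mul_of_nonneg_left hA (sub_nonneg.2 hp)
    calc _ ≤ (1 - p) * F'.card := by linarith
      _ ≤ _ := c3.trans (le_of_eq (by ring))

theorem net (d N : ℕ) (hd : 1 ≤ d) (hN : 1 ≤ N) : ∃ F : Finset (EuclideanSpace ℝ (Fin d)),
    F.card ≤ (2 * N * d ^ 2) ^ d ∧ ∀ y : EuclideanSpace ℝ (Fin d),
      (∀ i, y i ∈ Set.Ico (0 : ℝ) (2 * d)) → ∃ x ∈ F, ‖y - x‖ ≤ 1 / N := by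
  classical
  have d0 : (1 : ℝ) ≤ d := by exact_mod_cast hd
  have N0 : (1 : ℝ) ≤ N := by exact_mod_cast hN
  refine ⟨Finset.univ.image fun z : Fin d → Fin (2 * N * d ^ 2) =>
    WithLp.toLp 2 fun i => ((z i : ℕ) : ℝ) / (N * d), ?_, fun y hy => ?_⟩
  · refine Finset.card_image_le.trans ?_
    simp
  · have hz : ∀ i, ⌊y i * (N * d)⌋₊ < 2 * N * d ^ 2 := fun i => by
      rw [Nat.floor_lt (mul_nonneg (hy i).1 (by positivity))]
      push_cast
      have := mul_lt_mul_of_pos_right (hy i).2 (show (0 : ℝ) < N * d by positivity)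
      linarith
    refine ⟨_, Finset.mem_image_of_mem _ (Finset.mem_univ fun i => ⟨_, hz i⟩), ?_⟩
    refine le_of_sq_le_sq ?_ (by positivity)
    rw [EuclideanSpace.real_norm_sq_eq]
    have : ∀ i, (y i - (⌊y i * (N * d)⌋₊ : ℝ) / (N * d)) ^ 2 ≤ (1 / (N * d)) ^ 2 := fun i => by
      have h1 := Nat.floor_le (mul_nonneg (hy i).1 (show (0 : ℝ) ≤ N * d by positivity))
      have h2 := Nat.lt_floor_add_one (y i * (N * d))
      have e : y i - (⌊y i * (N * d)⌋₊ : ℝ) / (N * d) =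
          (y i * (N * d) - ⌊y i * (N * d)⌋₊) / (N * d) := by field_simp
      rw [e]
      refine pow_le_pow_left₀ (div_nonneg (by linarith) (by positivity)) ?_ 2
      exact div_le_div_of_nonneg_right (by linarith) (by positivity)
    refine (Finset.sum_le_sum fun i _ => this i).trans ?_
    rw [Finset.sum_const, Finset.card_univ, Fintype.card_fin, nsmul_eq_mul]
    have e : (d : ℝ) * (1 / (N * d)) ^ 2 = (1 / N) ^ 2 / d := by field_simp
    rw [e]
    exact div_le_self (by positivity) d0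

theorem col (hP : SProb) (d N k : ℕ) (hd : 1 ≤ d) (hN : 3 ≤ N) (ρ : ℝ) (h0 : 1 ≤ ρ)
    (hρ : 27 / 16 ≤ ρ ^ 2)
    (hk : (d : ℝ) * (2 * N * d ^ 2) <
      ((1 / 2 - 1 / N) / (ρ + 3 / 2 * (1 / N))) ^ d / 8 * k) :
    ∃ c : EuclideanSpace ℝ (Fin d) → Fin k, ∀ x y : EuclideanSpace ℝ (Fin d),
      (∀ i, x i ∈ Set.Ico (0 : ℝ) (2 * d)) → (∀ i, y i ∈ Set.Ico (0 : ℝ) (2 * d)) →
      ‖x - y‖ = 1 → c x ≠ c y := by
  classical
  have N0 : (3 : ℝ) ≤ N := by exact_mod_cast hN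
  set δ : ℝ := 1 / N with hδ
  have δ0 : 0 < δ := by positivity
  have δ1 : δ ≤ 1 / 3 := one_div_le_one_div_of_le (by norm_num) N0
  set r : ℝ := 1 / 2 - δ with hr
  set R : ℝ := ρ + 3 / 2 * δ with hR
  have r0 : 0 < r := by linarith
  have rR : r ≤ R := by linarith
  set p : ℝ := (r / R) ^ d / 8 with hp
  have p0 : 0 < p := by have : 0 < R := by linarith
                        positivity
  have p1 : p ≤ 1 := by
    have : (r / R) ^ d ≤ 1 := pow_le_one₀ (div_nonneg r0.le (by linarith))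
      ((div_le_one (by linarith)).2 rR)
    linarith
  obtain ⟨F, hF, hnet⟩ := net d N hd (by omega)
  obtain ⟨A, hA⟩ := greedy (fun A x => Good r R A x) p p1
    (fun F => by
      obtain ⟨A, hA⟩ := hP d F r R hd r0 (by linarith)
      exact ⟨A, by convert hA⟩) F k
  have hlt : (1 - p) ^ k * (F.card : ℝ) < 1 := by
    have h1 : (1 - p) ^ k ≤ Real.exp (-(p * k)) := by
      have := pow_le_pow_left₀ (sub_nonneg.2 p1) (Real.one_sub_le_exp_neg p) k
      rwa [← Real.exp_nat_mul, mul_neg, mul_comm (k : ℝ)] at this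
    have h2 : (F.card : ℝ) ≤ Real.exp (d * (2 * N * d ^ 2)) := by
      have h3 : (F.card : ℝ) ≤ (2 * N * d ^ 2 : ℝ) ^ d := by exact_mod_cast hF
      rw [Real.exp_nat_mul]
      refine h3.trans (pow_le_pow_left₀ (by positivity) ?_ d)
      linarith [Real.add_one_le_exp (2 * N * d ^ 2 : ℝ)]
    calc _ ≤ Real.exp (-(p * k)) * Real.exp (d * (2 * N * d ^ 2)) :=
          mul_le_mul h1 h2 (by positivity) (Real.exp_pos _).le
      _ < 1 := by rw [← Real.exp_add, Real.exp_lt_one_iff]; linarith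
  have hcov : ∀ x ∈ F, ∃ i < k, Good r R (A i) x := by
    intro x hx
    by_contra hn
    have h1 : 0 < (F.filter fun x => ∀ i < k, ¬ Good r R (A i) x).card :=
      Finset.card_pos.2 ⟨x, Finset.mem_filter.2 ⟨hx, fun i hi hg => hn ⟨i, hi, hg⟩⟩⟩
    have h2 : (1 : ℝ) ≤ (F.filter fun x => ∀ i < k, ¬ Good r R (A i) x).card := by
      exact_mod_cast h1
    have h3 := hA.trans_lt hlt
    exact absurd h2 (not_le.2 (by convert h3))
  have k0 : 0 < k := by
    rcases Nat.eq_zero_or_pos k with h | h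
    · rw [h, Nat.cast_zero, mul_zero] at hk
      exact absurd hk (not_lt.2 (by positivity))
    · exact h
  have hch : ∀ y : EuclideanSpace ℝ (Fin d), ∃ i : Fin k,
      (∀ j, y j ∈ Set.Ico (0 : ℝ) (2 * d)) → ∃ c ∈ A i, ‖y - c‖ < 1 / 2 ∧
        ∀ c' ∈ A i, c' ≠ c → ρ < ‖c' - c - (3 / 2 : ℝ) • (y - c)‖ := by
    intro y
    by_cases hy : ∀ j, y j ∈ Set.Ico (0 : ℝ) (2 * d)
    · obtain ⟨x, hx, hxy⟩ := hnet y hy
      obtain ⟨i, hi, c, hc, h1, h2⟩ := hcov x hx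
      refine ⟨⟨i, hi⟩, fun _ => ⟨c, hc, ?_, fun c' hc' hne => ?_⟩⟩
      · rw [dist_eq_norm] at h1
        have := norm_add_le (y - x) (x - c)
        rw [sub_add_sub_cancel] at this
        linarith
      · have h3 := h2 c' hc' hne
        rw [dist_eq_norm] at h3
        have e : c' - (c + (3 / 2 : ℝ) • (x - c)) =
            (c' - c - (3 / 2 : ℝ) • (y - c)) + (3 / 2 : ℝ) • (y - x) := by module
        have h4 := norm_add_le (c' - c - (3 / 2 : ℝ) • (y - c)) ((3 / 2 : ℝ) • (y - x))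
        rw [← e, norm_smul, Real.norm_eq_abs, abs_of_pos (by norm_num : (0 : ℝ) < 3 / 2)] at h4
        linarith
    · exact ⟨⟨0, k0⟩, fun h => absurd h hy⟩
  choose c hc using hch
  refine ⟨c, fun x y hx hy h1 he => ?_⟩
  obtain ⟨a, ha, a1, a2⟩ := hc x hx
  obtain ⟨b, hb, b1, b2⟩ := hc y hy
  rw [← he] at hb b2
  by_cases hab : b = a
  · rw [hab] at b1
    have := norm_sub_le (x - a) (y - a)
    rw [sub_sub_sub_cancel_right] at this
    linarith
  · have g1 := a2 b hb hab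
    have g2 := b2 a ha (Ne.symm hab)
    have e : a - b - (3 / 2 : ℝ) • (y - b) = -(b - a + (3 / 2 : ℝ) • (y - b)) := by module
    rw [e, norm_neg] at g2
    refine piece (x - a) (y - b) (b - a) ρ (by linarith) hρ a1.le b1.le g1 g2 ?_
    have e2 : b - a + (y - b) - (x - a) = -(x - y) := by module
    rw [e2, norm_neg, h1]

theorem upper_of (hP : SProb) (c : ℝ) (hc : 3 * √3 / 2 < c) : ∃ d₀ : ℕ, ∀ d n : ℕ, d₀ ≤ d →
    c ^ d ≤ n → ∃ f : EuclideanSpace ℝ (Fin d) → EuclideanSpace ℝ (Fin n),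
      (∀ x y, ‖x - y‖ = 1 → ‖f x - f y‖ = 1) ∧ ∃ x y, ‖f x - f y‖ ≠ ‖x - y‖ := by
  set ρ : ℝ := 3 * √3 / 4 with hρ
  have s3 : √3 ^ 2 = 3 := Real.sq_sqrt (by norm_num)
  have s0 : 0 ≤ √3 := Real.sqrt_nonneg 3
  have ρ2 : 27 / 16 ≤ ρ ^ 2 := by rw [hρ]; nlinarith
  have ρ0 : 0 ≤ ρ := by positivity
  have ρ1 : 1 ≤ ρ := by nlinarith
  have g0 : 0 < c / 2 - ρ := by linarith
  obtain ⟨N, hN⟩ := exists_nat_gt (max 3 ((c + 3 / 2) / (c / 2 - ρ)))
  have N3 : (3 : ℝ) < N := (le_max_left _ _).trans_lt hN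
  have N3' : 3 ≤ N := by exact_mod_cast N3.le
  have N4 : c + 3 / 2 < N * (c / 2 - ρ) := (div_lt_iff₀ g0).1 ((le_max_right _ _).trans_lt hN)
  set δ : ℝ := 1 / N with hδ
  have δ0 : 0 < δ := by positivity
  have δ1 : δ ≤ 1 / 3 := one_div_le_one_div_of_le (by norm_num) N3.le
  have δN : δ * N = 1 := by rw [hδ]; field_simp
  set t : ℝ := (1 / 2 - δ) / (ρ + 3 / 2 * δ) with ht
  have t0 : 0 < t := div_pos (by linarith) (by linarith)
  have ct : 1 < c * t := by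
    rw [ht, ← mul_div_assoc, lt_div_iff₀ (by linarith)]
    have := mul_lt_mul_of_pos_left N4 δ0
    rw [← mul_assoc, δN] at this
    linarith
  have t1 : t ≤ 1 := (div_le_one (by linarith)).2 (by linarith)
  have h := tendsto_pow_const_div_const_pow_of_one_lt 4 ct
  obtain ⟨d₀, hd₀⟩ := eventually_atTop.1 ((h.eventually
    (gt_mem_nhds (show (0 : ℝ) < 1 / (64 * N) by positivity))).and (eventually_ge_atTop 1))
  refine ⟨d₀, fun d n hd hn => ?_⟩
  obtain ⟨h1, h2⟩ := hd₀ d hd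
  have d1 : (1 : ℝ) ≤ d := by exact_mod_cast h2
  have td : 0 < t ^ d := by positivity
  have td1 : t ^ d ≤ 1 := pow_le_one₀ t0.le t1
  set Z : ℝ := d * (2 * N * d ^ 2) with hZ
  have Z0 : 0 ≤ Z := by positivity
  obtain ⟨col', hcol⟩ := col hP d N (⌊8 * Z / t ^ d⌋₊ + 1) h2 N3' ρ ρ1 ρ2 (by
    have := Nat.lt_floor_add_one (8 * Z / t ^ d)
    rw [div_lt_iff₀ td] at this
    push_cast
    rw [← hδ, ← ht, ← hZ]
    linarith)
  refine H12S.map_of_cube h2 ?_ col' hcol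
  have k1 : ((⌊8 * Z / t ^ d⌋₊ + 1 : ℕ) : ℝ) * t ^ d ≤ 8 * Z + 1 := by
    have := Nat.floor_le (show 0 ≤ 8 * Z / t ^ d by positivity)
    rw [le_div_iff₀ td] at this
    push_cast
    linarith
  rw [div_lt_div_iff₀ (by positivity) (by positivity), one_mul, mul_pow] at h1
  have k2 : ((d : ℝ) + 1) * (8 * Z + 1) ≤ d ^ 4 * (64 * N) := by
    have d3 : (1 : ℝ) ≤ N * d ^ 3 := one_le_mul_of_one_le_of_one_le (by linarith) (one_le_pow₀ d1)
    have e1 : 8 * Z + 1 ≤ 17 * (N * d ^ 3) := by rw [hZ]; nlinarith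
    have e2 : ((d : ℝ) + 1) * (8 * Z + 1) ≤ (2 * d) * (17 * (N * d ^ 3)) :=
      mul_le_mul (by linarith) e1 (by positivity) (by positivity)
    have e3 : (0 : ℝ) ≤ d ^ 4 * N := by positivity
    nlinarith
  have k3 : (((d + 1) * (⌊8 * Z / t ^ d⌋₊ + 1) : ℕ) : ℝ) * t ^ d ≤ n * t ^ d := by
    have := mul_le_mul_of_nonneg_left k1 (show (0 : ℝ) ≤ d + 1 by positivity)
    have h5 := mul_le_mul_of_nonneg_right hn td.le
    rw [Nat.cast_mul, mul_assoc]
    push_cast at this ⊢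
    linarith
  exact_mod_cast le_of_mul_le_mul_right k3 td

end Pool.Agent.MP_66cee2_co.H32U
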