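import Pool.Agent.MP_66cee2_co.H30U.Main
import Pool.Agent.MP_66cee2_co.H32U.Asm

/-
The random piece for arbitrary radii, and the bound for every base above `3 √3 / 2`.
-/

namespace Pool.Agent.MP_66cee2_co.H32U

open MeasureTheory Set Metric ProbabilityTheory Filter
open Pool.Agent.MP_66cee2_co.H30U (V pair good_meas unif)

theorem probG {d m : ℕ} (ν : Measure (V d)) [IsProbabilityMeasure ν] (z : V d) (r s v : ℝ)
    (hrs : 2 * r ≤ s) (hv0 : 0 ≤ v) (hv : ∀ c, ν.real (closedBall c s) ≤ v) :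
    m * (ν.real (ball z r) * (1 - m * v)) ≤
      (Measure.pi fun _ : Fin m => ν).real (⋃ j, {a | H30U.Good r s a j z}) := by
  rw [measureReal_iUnion_fintype ?_ (fun j => good_meas _ _ j z)]
  · have h : ∀ j : Fin m, ν.real (ball z r) * (1 - m * v) ≤
        (Measure.pi fun _ : Fin m => ν).real {a | H30U.Good r s a j z} := by
      intro j
      have e1 : (Measure.pi fun _ : Fin m => ν).real
          ((fun a : Fin m → V d => a j) ⁻¹' ball z r) = ν.real (ball z r) :=
        (measurePreserving_eval (fun _ : Fin m => ν) j).measureReal_preimage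
          measurableSet_ball.nullMeasurableSet
      have sub : (fun a : Fin m → V d => a j) ⁻¹' ball z r ⊆
          {a | H30U.Good r s a j z} ∪ ⋃ i ∈ Finset.univ.erase j,
            {a | ‖z - a j‖ < r ∧ ‖a i - (a j + (3 / 2 : ℝ) • (z - a j))‖ ≤ s} := by
        intro a ha
        have ha' : ‖z - a j‖ < r := by
          rw [mem_preimage, mem_ball, dist_comm, dist_eq_norm] at ha; exact ha
        by_cases hg : ∀ i, i ≠ j → s < ‖a i - (a j + (3 / 2 : ℝ) • (z - a j))‖
        · exact Or.inl ⟨ha', hg⟩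
        · simp only [not_forall, not_lt] at hg
          obtain ⟨i, hi, hle⟩ := hg
          exact Or.inr (mem_biUnion (Finset.mem_erase.2 ⟨hi, Finset.mem_univ _⟩) ⟨ha', hle⟩)
      have e2 := (measureReal_mono (μ := Measure.pi fun _ : Fin m => ν) sub).trans
        ((measureReal_union_le _ _).trans (add_le_add le_rfl
          ((measureReal_biUnion_finset_le _ _).trans
          (Finset.sum_le_card_nsmul _ _ (ν.real (ball z r) * v) fun i hi =>
            pair ν (Finset.mem_erase.1 hi).1 z _ _ v hv0 hv))))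
      rw [e1, nsmul_eq_mul] at e2
      have e3 : ((Finset.univ.erase j).card : ℝ) ≤ m := by
        exact_mod_cast (Finset.card_erase_le.trans (by simp))
      have e4 : 0 ≤ ν.real (ball z r) * v := mul_nonneg measureReal_nonneg hv0
      nlinarith
    have := Finset.card_nsmul_le_sum Finset.univ _ _ fun j _ => h j
    simpa using this
  · intro i j hij
    refine disjoint_left.2 fun a h1 h2 => ?_
    have k1 := h1.2 j hij.symm
    have e : a j - (a i + (3 / 2 : ℝ) • (z - a i)) = -((z - a j) + (1 / 2 : ℝ) • (z - a i)) := by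
      module
    have k2 := norm_add_le (z - a j) ((1 / 2 : ℝ) • (z - a i))
    rw [norm_smul, Real.norm_eq_abs, abs_of_pos (by norm_num : (0 : ℝ) < 1 / 2)] at k2
    rw [e, norm_neg] at k1
    linarith [h1.1, h2.1, norm_nonneg (z - a i)]

theorem sProb : SProb := by
  classical
  intro d F r s hd r0 hrs
  obtain ⟨B, hB⟩ := (F.finite_toSet.isBounded).exists_norm_le
  obtain ⟨R, hR⟩ : ∃ R : ℝ, R = |B| + 2 * s := ⟨_, rfl⟩
  have s0 : 0 < s := by linarith
  have R1 : 2 * s ≤ R := by linarith [abs_nonneg B]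
  have R0 : 0 < R := by linarith
  obtain ⟨ν, hν, h1, h2⟩ := unif (d := d) R R0
  obtain ⟨v, hv⟩ : ∃ v : ℝ, v = (s / R) ^ d := ⟨_, rfl⟩
  have v0 : 0 < v := by rw [hv]; positivity
  have v1 : v ≤ 1 / 2 := by
    have : s / R ≤ 1 / 2 := by rw [div_le_iff₀ R0]; linarith
    rw [hv]
    exact (pow_le_of_le_one (by positivity) (by linarith) (by omega)).trans this
  obtain ⟨m, m1, m2⟩ : ∃ m : ℕ, m * v ≤ 1 / 2 ∧ 1 / 4 ≤ m * v := by
    have a1 : 1 ≤ 1 / (2 * v) := by rw [le_div_iff₀ (by positivity)]; linarith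
    have a2 := Nat.floor_le (show 0 ≤ 1 / (2 * v) by positivity)
    have a3 := Nat.lt_floor_add_one (1 / (2 * v))
    have a4 : (1 : ℝ) ≤ ⌊1 / (2 * v)⌋₊ := by exact_mod_cast Nat.floor_pos.2 a1
    refine ⟨⌊1 / (2 * v)⌋₊, ?_, ?_⟩
    · rw [le_div_iff₀ (by positivity)] at a2; linarith
    · rw [div_lt_iff₀ (by positivity)] at a3; nlinarith
  have q1 : (r / R) ^ d = (r / s) ^ d * v := by
    rw [hv, ← mul_pow]; congr 1; field_simp
  set P : Measure (Fin m → V d) := Measure.pi fun _ : Fin m => ν with hP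
  let S : V d → Set (Fin m → V d) := fun x => ⋃ j, {a | H30U.Good r s a j x}
  have Sm : ∀ x, MeasurableSet (S x) := fun x => MeasurableSet.iUnion fun j => good_meas _ _ j _
  have hS : ∀ x ∈ F, (r / s) ^ d / 8 ≤ P.real (S x) := by
    intro x hx
    refine le_trans ?_ (probG ν x r s v hrs v0.le fun c => hv ▸ h2 c _ s0.le)
    rw [h1 _ _ r0 (by linarith [hB x hx, le_abs_self B]), q1]
    have : (0 : ℝ) < (r / s) ^ d := by positivity
    have e : (m : ℝ) * ((r / s) ^ d * v * (1 - m * v))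
        = (r / s) ^ d * ((m * v) * (1 - m * v)) := by ring
    rw [e, div_eq_mul_inv]
    refine mul_le_mul_of_nonneg_left ?_ this.le
    nlinarith
  have hi : ∀ x, Integrable ((S x).indicator (1 : (Fin m → V d) → ℝ)) P := fun x =>
    (integrable_const 1).indicator (Sm x)
  obtain ⟨a, ha⟩ := exists_integral_le (μ := P)
    (f := fun a => ∑ x ∈ F, (S x).indicator (1 : (Fin m → V d) → ℝ) a)
    (integrable_finsetSum _ fun x _ => hi x)
  rw [integral_finsetSum _ fun x _ => hi x] at ha
  refine ⟨Finset.univ.image a, ?_⟩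
  have l1 : (r / s) ^ d / 8 * F.card ≤
      ∑ x ∈ F, ∫ a, (S x).indicator (1 : (Fin m → V d) → ℝ) a ∂P := by
    have := Finset.card_nsmul_le_sum F _ _ hS
    rw [nsmul_eq_mul, mul_comm] at this
    refine this.trans (le_of_eq (Finset.sum_congr rfl fun x _ => ?_))
    rw [integral_indicator_one (Sm x)]
  refine l1.trans (ha.trans ?_)
  rw [Finset.card_filter]
  push_cast
  refine Finset.sum_le_sum fun x _ => ?_
  by_cases hx : a ∈ S x
  · obtain ⟨j, hj⟩ := mem_iUnion.1 hx
    have : Good r s (Finset.univ.image a) x := by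
      refine ⟨a j, Finset.mem_image_of_mem _ (Finset.mem_univ j), ?_, fun c' hc' hne => ?_⟩
      · rw [dist_eq_norm]; exact hj.1
      · obtain ⟨i, -, rfl⟩ := Finset.mem_image.1 hc'
        rw [dist_eq_norm]
        exact hj.2 i fun h => hne (by rw [h])
    rw [indicator_of_mem hx, if_pos this]
    simp
  · rw [indicator_of_notMem hx]
    split_ifs <;> norm_num

theorem upper (c : ℝ) (hc : 3 * √3 / 2 < c) : ∃ d₀ : ℕ, ∀ d n : ℕ, d₀ ≤ d →
    c ^ d ≤ n → ∃ f : EuclideanSpace ℝ (Fin d) → EuclideanSpace ℝ (Fin n),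
      (∀ x y, ‖x - y‖ = 1 → ‖f x - f y‖ = 1) ∧ ∃ x y, ‖f x - f y‖ ≠ ‖x - y‖ :=
  upper_of sProb c hc

end Pool.Agent.MP_66cee2_co.H32U
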